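import Pool.Agent.H71.NU.Stmts

/-!
# ORB: the orbit relation is a countable Borel equivalence relation
-/

namespace NU

open MeasureTheory MS

theorem ORB_append {Ω : Type} (t : L → Ω → Ω) (l l' : List L) (ω : Ω) :
    act t (l ++ l') ω = act t l' (act t l ω) := by
  induction l generalizing ω with
  | nil => rfl
  | cons s l ih => exact ih (t s ω)

theorem ORB_reverse {Ω : Type} (t : L → Ω → Ω) (ht : ∀ s, Function.Involutive (t s))
    (l : List L) (ω : Ω) : act t l.reverse (act t l ω) = ω := by
  induction l generalizing ω with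
  | nil => rfl
  | cons s l ih =>
    rw [List.reverse_cons, ORB_append]
    change act t [s] (act t l.reverse (act t l (t s ω))) = ω
    rw [ih (t s ω)]
    exact ht s ω

theorem ORB_meas {Ω : Type} [MeasurableSpace Ω] (t : L → Ω → Ω) (ht : ∀ s, Measurable (t s))
    (l : List L) : Measurable (act t l) := by
  induction l with
  | nil => exact measurable_id
  | cons s l ih => exact ih.comp (ht s)

theorem sOrb (h : STog) : SOrb := by
  obtain ⟨-, h2, h3, -⟩ := h
  refine ⟨inferInstance, ?_, ?_, ?_⟩
  · refine ⟨fun ω => ⟨[], rfl⟩, ?_, ?_⟩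
    · rintro ω ω' ⟨l, rfl⟩
      exact ⟨l.reverse, ORB_reverse T h2 l ω⟩
    · rintro ω ω' ω'' ⟨l, rfl⟩ ⟨l', rfl⟩
      exact ⟨l ++ l', ORB_append T l l' ω⟩
  · have : {p : Om × Om | ∃ l, act T l p.1 = p.2} = ⋃ l : List L, {p : Om × Om | act T l p.1 = p.2} := by
      ext p
      simp
    rw [this]
    refine MeasurableSet.iUnion fun l => ?_
    exact measurableSet_eq_fun ((ORB_meas T h3 l).comp measurable_fst) measurable_snd
  · intro ω
    have : {y | ∃ l, act T l ω = y} = Set.range (fun l : List L => act T l ω) := by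
      ext y
      simp
    rw [this]
    exact Set.countable_range _

end NU
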